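import Pool.Agent.H34.Nag.NagZ

set_option autoImplicit false

/-!
# Quasiconformal maps raising the Nagata dimension from `0` to `n`

`En n` is Euclidean space, `dimN` the Nagata dimension, `IsQC f` says that the metric distortion of
the homeomorphism `f` between open sets is bounded; see `Pool.Agent.H34.Nag.NagZ`.
-/

namespace Pool.Agent.Results.MP_a3803f_an.ZeroToFull

open Pool.Agent.H34.Nag Filter Topology

/-- For every `n ≥ 2` there are domains `Ω` (`f.source`) and `Ω'` (`f.target`) in `ℝⁿ`, a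
quasiconformal homeomorphism `f : Ω → Ω'`, which is the identity on a half-space and locally
bi-Lipschitz with constant `2` everywhere, and a set `E ⊆ Ω` with `dim_N E = 0` and
`dim_N f(E) = n`. -/
theorem result (n : ℕ) (hn : 2 ≤ n) : ∃ f : OpenPartialHomeomorph (En n) (En n),
    IsConnected f.source ∧ IsConnected f.target ∧ IsQC f ∧
    (∀ x : En n, x ⟨0, by omega⟩ < 0 → x ∈ f.source ∧ f x = x) ∧
    (∀ x ∈ f.source, ∀ᶠ y in 𝓝 x, dist (f y) (f x) ≤ 2 * dist y x ∧
      dist y x ≤ 2 * dist (f y) (f x)) ∧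
    ∃ E : Set (En n), E ⊆ f.source ∧ dimN E = 0 ∧ dimN (f '' E) = (n : ℕ∞) := by
  obtain ⟨m, rfl⟩ : ∃ m, n = m + 2 := ⟨n - 2, by omega⟩
  exact main m

end Pool.Agent.Results.MP_a3803f_an.ZeroToFull
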